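import Mathlib

open Module Set

namespace Pool.Agent.Results.MP_7230e4_co.MinimalNotTangential

variable {α : Type}

/-- A geometry: a finite simple matroid (no loops, no two parallel elements). -/
structure IsGeometry (M : Matroid α) : Prop where
  finite : M.E.Finite
  simple : ∀ e ∈ M.E, ∀ f ∈ M.E, M.Indep {e, f}

/-- `v` represents `M` as a spanning set of distinct points of the projective space
`PG(n-1, K)`, `n = rank M`, with the induced rank function. -/
structure IsRep (K : Type) [Field K] (n : ℕ) (M : Matroid α)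
    (v : α → Projectivization K (Fin n → K)) : Prop where
  rank : M.eRank = n
  inj : Set.InjOn v M.E
  rk : ∀ Y ⊆ M.E, M.eRk Y =
    (finrank K (⨆ e ∈ Y, (v e).submodule : Submodule K (Fin n → K)) : ℕ∞)

open Classical in
/-- The characteristic polynomial
`χ(M; X) = ∑_{A ⊆ E} (-1)^|A| X^(r(M) - r(A))` of a matroid on a finite type. -/
noncomputable def charPoly [Fintype α] (M : Matroid α) : Polynomial ℤ :=
  ∑ A ∈ Finset.univ.filter (fun A : Finset α => (A : Set α) ⊆ M.E),
    (-1) ^ (Finset.card A) * Polynomial.X ^ (M.eRank.toNat - (M.eRk (A : Set α)).toNat)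

/-- The critical exponent `c(M; q)`: the least `c` with `χ(M; q^c) ≠ 0`
(`⊤` if there is none). -/
noncomputable def critExp [Fintype α] (M : Matroid α) (q : ℕ) : ℕ∞ :=
  sInf {c : ℕ∞ | ∃ m : ℕ, c = m ∧ (charPoly M).eval ((q : ℤ) ^ m) ≠ 0}

/-- `M` is a `k`-block over `GF(q)`. -/
def IsBlock [Fintype α] (q k : ℕ) (M : Matroid α) : Prop :=
  (k : ℕ∞) < critExp M q

/-- `M` is a minimal `k`-block over `GF(q)`. -/
def IsMinimalBlock [Fintype α] (q k : ℕ) (M : Matroid α) : Prop :=
  IsBlock q k M ∧ ∀ x ∈ M.E, critExp (M.delete {x}) q ≤ k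

/-- A tangent of codimension `k` to `Y ⊆ E`: a subspace `U` of rank `n - k` such that the
points of `M` lying in `U` are exactly those in `Y`. -/
def HasTangent {K : Type} [Field K] {n : ℕ} (M : Matroid α)
    (v : α → Projectivization K (Fin n → K)) (k : ℕ) (Y : Set α) : Prop :=
  ∃ U : Submodule K (Fin n → K), finrank K U + k = n ∧
    ∀ e ∈ M.E, (v e).submodule ≤ U ↔ e ∈ Y

/-- The tangential `k`-block condition for `M` represented by `v` in `PG(n-1, K)`. -/
def IsTangentialBlock [Fintype α] {K : Type} [Field K] [Fintype K] {n : ℕ} (k : ℕ)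
    (M : Matroid α) (v : α → Projectivization K (Fin n → K)) : Prop :=
  IsBlock (Fintype.card K) k M ∧
    ∀ Y, M.IsFlat Y → Y.Nonempty → M.eRk Y + k ≤ n → HasTangent M v k Y

/-- A copoint: a flat of rank `rank M - 1`. -/
def IsCopoint (M : Matroid α) (X : Set α) : Prop :=
  M.IsFlat X ∧ M.eRk X + 1 = M.eRank

/-- A modular copoint: every line (flat of rank two) meets it. -/
def IsModularCopoint (M : Matroid α) (X : Set α) : Prop :=
  IsCopoint M X ∧ ∀ L, M.IsFlat L → M.eRk L = 2 → (L ∩ X).Nonempty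

section Lin

variable {K : Type} [Field K] {n : ℕ}

theorem span_aux {w : α → (Fin n → K)} {I J : Set α} (hI : LinearIndepOn K w I)
    (hmax : ∀ e ∈ J, e ∉ I → ¬ LinearIndepOn K w (insert e I)) :
    Submodule.span K (w '' J) ≤ Submodule.span K (w '' I) := by
  rw [Submodule.span_le]
  rintro _ ⟨e, he, rfl⟩
  by_cases heI : e ∈ I
  · exact Submodule.subset_span ⟨e, heI, rfl⟩
  · by_contra hnot
    exact hmax e he heI (hI.insert hnot)

theorem finrank_aux [Finite α] {w : α → (Fin n → K)} {I : Set α} (hI : LinearIndepOn K w I) :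
    finrank K (Submodule.span K (w '' I)) = I.ncard := by
  classical
  have : Fintype I := Fintype.ofFinite _
  have h := finrank_span_eq_card (R := K) (b := fun x : I => w x) hI
  rw [show w '' I = Set.range (fun x : I => w x) from by
    ext y; simp]
  rw [h, ← Nat.card_eq_fintype_card, Nat.card_coe_set_eq]

/-- linear matroid -/
noncomputable def linMat [Finite α] (w : α → (Fin n → K)) : Matroid α :=
  (IndepMatroid.ofFinite (E := Set.univ) Set.finite_univ (fun I => LinearIndepOn K w I)
    (linearIndepOn_empty K w)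
    (fun I J hJ hIJ => hJ.mono hIJ)
    (by
      intro I J hI hJ hcard
      by_contra hcon
      push Not at hcon
      have hsub := span_aux (J := J) hI hcon
      have h1 := finrank_aux hI
      have h2 := finrank_aux hJ
      have := Submodule.finrank_mono hsub
      omega)
    (fun I _ => Set.subset_univ I)).matroid

theorem linMat_indep [Finite α] (w : α → (Fin n → K)) (I : Set α) :
    (linMat w).Indep I ↔ LinearIndepOn K w I := by
  simp [linMat]

theorem linMat_E [Finite α] (w : α → (Fin n → K)) : (linMat w).E = Set.univ := by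
  simp [linMat]

theorem isBasis_span [Finite α] (w : α → (Fin n → K)) {I Y : Set α} (h : (linMat w).IsBasis I Y) :
    Submodule.span K (w '' I) = Submodule.span K (w '' Y) := by
  apply le_antisymm
  · exact Submodule.span_mono (Set.image_mono h.subset)
  · apply span_aux ((linMat_indep w I).1 h.indep)
    intro e he heI hins
    rw [← linMat_indep] at hins
    exact heI (h.mem_of_insert_indep he hins)

theorem linMat_eRk [Finite α] (w : α → (Fin n → K)) (Y : Set α) :
    (linMat w).eRk Y = (finrank K (Submodule.span K (w '' Y)) : ℕ∞) := by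
  obtain ⟨I, hI⟩ := (linMat w).exists_isBasis Y (by rw [linMat_E]; exact Set.subset_univ _)
  rw [← hI.encard_eq_eRk, ← isBasis_span w hI, finrank_aux ((linMat_indep w I).1 hI.indep)]
  exact (Set.Finite.cast_ncard_eq (Set.toFinite I)).symm

theorem mem_closure_iff [Finite α] (w : α → (Fin n → K)) (Y : Set α) (e : α) :
    e ∈ (linMat w).closure Y ↔ w e ∈ Submodule.span K (w '' Y) := by
  obtain ⟨I, hI⟩ := (linMat w).exists_isBasis Y (by rw [linMat_E]; exact Set.subset_univ _)
  rw [← hI.closure_eq_closure, ← isBasis_span w hI]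
  have hI' := (linMat_indep w I).1 hI.indep
  by_cases heI : e ∈ I
  · constructor
    · intro _; exact Submodule.subset_span ⟨e, heI, rfl⟩
    · intro _; exact (linMat w).subset_closure I (by rw [linMat_E]; exact Set.subset_univ _) heI
  · rw [hI.indep.mem_closure_iff_of_notMem heI, Matroid.dep_iff, linMat_indep, linMat_E]
    constructor
    · rintro ⟨h, -⟩
      by_contra hnot
      exact h (hI'.insert hnot)
    · intro h
      refine ⟨fun hins => ?_, Set.subset_univ _⟩
      exact (linearIndepOn_insert heI).1 hins |>.2 h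

theorem isFlat_iff [Finite α] (w : α → (Fin n → K)) (Y : Set α) :
    (linMat w).IsFlat Y ↔ ∀ e, w e ∈ Submodule.span K (w '' Y) → e ∈ Y := by
  rw [Matroid.isFlat_iff_closure_eq]
  constructor
  · intro h e he
    rw [← h]; exact (mem_closure_iff w Y e).2 he
  · intro h
    apply Set.Subset.antisymm
    · intro e he
      exact h e ((mem_closure_iff w Y e).1 he)
    · exact (linMat w).subset_closure Y (by rw [linMat_E]; exact Set.subset_univ _)

end Lin


section Count

variable {K : Type} [Field K] [Fintype K] {n : ℕ}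

theorem card_kill (W : Submodule K (Fin n → K)) :
    Nat.card {f : Dual K (Fin n → K) // W ≤ LinearMap.ker f}
      = (Fintype.card K) ^ (n - finrank K W) := by
  have h1 : Nat.card {f : Dual K (Fin n → K) // W ≤ LinearMap.ker f}
      = Nat.card W.dualAnnihilator := by
    apply Nat.card_congr
    refine Equiv.subtypeEquivRight (fun f => ?_)
    rw [Submodule.mem_dualAnnihilator]
    exact ⟨fun h w hw => h hw, fun h w hw => h w hw⟩
  have h2 := Subspace.finrank_add_finrank_dualAnnihilator_eq W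
  rw [Module.finrank_fin_fun] at h2
  rw [h1, Module.natCard_eq_pow_finrank (K := K), Nat.card_eq_fintype_card]
  congr 1
  omega

theorem sum_Icc_neg_one [DecidableEq α] (Y Z : Finset α) :
    (∑ A ∈ Finset.Icc Y Z, (-1 : ℤ) ^ A.card) = if Y = Z then (-1) ^ Y.card else 0 := by
  classical
  by_cases hYZ : Y ⊆ Z
  · rw [Finset.Icc_eq_image_powerset hYZ, Finset.sum_image]
    · have : ∀ B ∈ (Z \ Y).powerset, (-1 : ℤ) ^ (Y ∪ B).card = (-1) ^ Y.card * (-1) ^ B.card := by
        intro B hB
        rw [Finset.mem_powerset] at hB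
        rw [Finset.card_union_of_disjoint, pow_add]
        exact Finset.disjoint_of_subset_right hB Finset.disjoint_sdiff
      rw [Finset.sum_congr rfl this, ← Finset.mul_sum, Finset.sum_powerset_neg_one_pow_card]
      by_cases h : Y = Z
      · subst h; simp
      · rw [if_neg, if_neg h, mul_zero]
        intro h'
        apply h
        exact Finset.Subset.antisymm hYZ (Finset.sdiff_eq_empty_iff_subset.1 h')
    · intro A hA B hB hAB
      simp only [Finset.coe_powerset, Set.mem_preimage, Set.mem_powerset_iff,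
        Finset.coe_subset] at hA hB
      have hA' : (Y ∪ A) \ Y = A := by
        rw [Finset.union_sdiff_cancel_left]
        exact Finset.disjoint_of_subset_right hA Finset.disjoint_sdiff
      have hB' : (Y ∪ B) \ Y = B := by
        rw [Finset.union_sdiff_cancel_left]
        exact Finset.disjoint_of_subset_right hB Finset.disjoint_sdiff
      rw [← hA', ← hB']
      simp only at hAB
      rw [hAB]
  · have hne : Y ≠ Z := fun h => hYZ (h ▸ Finset.Subset.refl _)
    rw [if_neg hne, Finset.Icc_eq_empty, Finset.sum_empty]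
    exact hYZ

open Classical in
/-- zero set of a functional -/
noncomputable def zeroSet [Fintype α] (N : Matroid α) (v : α → Projectivization K (Fin n → K))
    (f : Dual K (Fin n → K)) : Finset α :=
  Finset.univ.filter (fun e => e ∈ N.E ∧ (v e).submodule ≤ LinearMap.ker f)

open Classical in
theorem count [Fintype α] (N : Matroid α) (v : α → Projectivization K (Fin n → K))
    (hrk : ∀ Y ⊆ N.E, N.eRk Y =
      (finrank K (⨆ e ∈ Y, (v e).submodule : Submodule K (Fin n → K)) : ℕ∞))
    (Y : Finset α) :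
    ∑ A ∈ Finset.univ.filter (fun A : Finset α => (A : Set α) ⊆ N.E ∧ Y ⊆ A),
      (-1 : ℤ) ^ A.card * (Fintype.card K : ℤ) ^ (n - (N.eRk (A : Set α)).toNat)
    = (-1) ^ Y.card * (Nat.card {f : Dual K (Fin n → K) // zeroSet N v f = Y} : ℤ) := by
  have : Finite (Dual K (Fin n → K)) :=
    Finite.of_injective (fun f : Dual K (Fin n → K) => (f : (Fin n → K) → K)) DFunLike.coe_injective
  let : Fintype (Dual K (Fin n → K)) := Fintype.ofFinite _
  have key : ∀ A : Finset α, (A : Set α) ⊆ N.E →
      (Fintype.card K : ℤ) ^ (n - (N.eRk (A : Set α)).toNat)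
        = ∑ f : Dual K (Fin n → K), if A ⊆ zeroSet N v f then 1 else 0 := by
    intro A hA
    rw [hrk _ hA, ENat.toNat_natCast]
    have := card_kill (⨆ e ∈ (A : Set α), (v e).submodule : Submodule K (Fin n → K))
    rw [Finset.sum_boole]
    rw [← Nat.cast_pow, ← this, Nat.card_eq_fintype_card, Fintype.card_subtype]
    congr 2
    ext f
    simp only [Finset.mem_filter, Finset.mem_univ, true_and, iSup_le_iff]
    constructor
    · intro h e he
      simp only [zeroSet, Finset.mem_filter, Finset.mem_univ, true_and]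
      exact ⟨hA he, h e he⟩
    · intro h e he
      have := h he
      simp only [zeroSet, Finset.mem_filter, Finset.mem_univ, true_and] at this
      exact this.2
  have hZ : ∀ f, (zeroSet N v f : Set α) ⊆ N.E := by
    intro f e he
    simp only [zeroSet, Finset.coe_filter, Finset.mem_univ, true_and, Set.mem_ofPred_eq] at he
    exact he.1
  calc
    _ = ∑ A ∈ Finset.univ.filter (fun A : Finset α => (A : Set α) ⊆ N.E ∧ Y ⊆ A),
      ∑ f : Dual K (Fin n → K), (-1 : ℤ) ^ A.card * (if A ⊆ zeroSet N v f then 1 else 0) := by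
        apply Finset.sum_congr rfl
        intro A hA
        rw [Finset.mem_filter] at hA
        rw [key A hA.2.1, Finset.mul_sum]
    _ = ∑ f : Dual K (Fin n → K), ∑ A ∈ Finset.univ.filter
          (fun A : Finset α => (A : Set α) ⊆ N.E ∧ Y ⊆ A),
          (-1 : ℤ) ^ A.card * (if A ⊆ zeroSet N v f then 1 else 0) := Finset.sum_comm
    _ = ∑ f : Dual K (Fin n → K), ∑ A ∈ Finset.Icc Y (zeroSet N v f), (-1 : ℤ) ^ A.card := by
        apply Finset.sum_congr rfl
        intro f _
        simp only [mul_ite, mul_one, mul_zero]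
        rw [← Finset.sum_filter, Finset.filter_filter]
        apply Finset.sum_congr _ (fun _ _ => rfl)
        ext A
        simp only [Finset.mem_filter, Finset.mem_univ, true_and, Finset.mem_Icc]
        constructor
        · rintro ⟨⟨-, h2⟩, h3⟩
          exact ⟨h2, h3⟩
        · rintro ⟨h2, h3⟩
          refine ⟨⟨?_, h2⟩, h3⟩
          exact (Finset.coe_subset.2 h3).trans (hZ f)
    _ = ∑ f : Dual K (Fin n → K), if zeroSet N v f = Y then (-1 : ℤ) ^ Y.card else 0 := by
        apply Finset.sum_congr rfl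
        intro f _
        rw [sum_Icc_neg_one]
        by_cases h : Y = zeroSet N v f
        · rw [if_pos h, if_pos h.symm]
        · rw [if_neg h, if_neg (fun h' => h h'.symm)]
    _ = _ := by
        rw [← Finset.sum_filter, Finset.sum_const, nsmul_eq_mul, mul_comm,
          Nat.card_eq_fintype_card, Fintype.card_subtype]

end Count


section Example

instance fact_prime_seven : Fact (Nat.Prime 7) := ⟨by norm_num⟩

/-- The 28 points of the example in `PG(4, 7)`: seven affine points and the 21 directions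
they determine. -/
def W : Fin 28 → Fin 5 → ZMod 7 := ![![0, 0, 0, 0, 1],
    ![1, 0, 0, 0, 1],
    ![0, 0, 1, 0, 1],
    ![0, 1, 1, 0, 1],
    ![0, 0, 0, 1, 1],
    ![0, 1, 0, 2, 1],
    ![1, 0, 6, 6, 1],
    ![1, 0, 0, 0, 0],
    ![0, 0, 1, 0, 0],
    ![0, 1, 1, 0, 0],
    ![0, 0, 0, 1, 0],
    ![0, 1, 0, 2, 0],
    ![1, 0, 6, 6, 0],
    ![6, 0, 1, 0, 0],
    ![6, 1, 1, 0, 0],
    ![6, 0, 0, 1, 0],
    ![6, 1, 0, 2, 0],
    ![0, 0, 6, 6, 0],
    ![0, 1, 0, 0, 0],
    ![0, 0, 6, 1, 0],
    ![0, 1, 6, 2, 0],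
    ![1, 0, 5, 6, 0],
    ![0, 6, 6, 1, 0],
    ![0, 0, 6, 2, 0],
    ![1, 6, 5, 6, 0],
    ![0, 1, 0, 1, 0],
    ![1, 0, 6, 5, 0],
    ![1, 6, 6, 4, 0]]

/-- For each point a functional whose only zero among the 28 points is that point. -/
def G : Fin 28 → Fin 5 → ZMod 7 := ![![1, 5, 4, 6, 0],
    ![1, 5, 4, 6, 6],
    ![2, 3, 1, 5, 6],
    ![1, 5, 4, 6, 5],
    ![1, 5, 4, 6, 1],
    ![1, 6, 4, 5, 5],
    ![1, 6, 4, 5, 1],
    ![0, 1, 4, 1, 1],
    ![1, 5, 0, 6, 3],
    ![2, 2, 5, 1, 1],
    ![1, 6, 5, 0, 5],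
    ![1, 4, 6, 5, 5],
    ![1, 6, 6, 2, 3],
    ![1, 2, 1, 2, 3],
    ![2, 1, 1, 5, 1],
    ![1, 1, 5, 1, 3],
    ![3, 1, 5, 1, 5],
    ![1, 1, 2, 5, 1],
    ![1, 0, 6, 5, 5],
    ![1, 6, 6, 6, 5],
    ![1, 6, 4, 6, 5],
    ![1, 1, 3, 2, 1],
    ![1, 6, 6, 5, 4],
    ![1, 5, 5, 6, 5],
    ![2, 2, 3, 1, 1],
    ![2, 6, 5, 1, 1],
    ![1, 6, 3, 6, 2],
    ![3, 1, 1, 5, 1]]

theorem G_spec : ∀ x e : Fin 28,
    (∑ i, G x i * W e i = 0) ↔ e = x := by
  decide +kernel

theorem W_ne : ∀ e : Fin 28, W e ≠ 0 := by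
  decide +kernel

theorem W_diff : ∀ e f : Fin 28, e ≠ f → W e 4 ≠ 0 → W f 4 ≠ 0 →
    ∃ g, W g 4 = 0 ∧ (W g = W e - W f ∨ W g = W f - W e) := by
  decide +kernel

theorem W_Y : ∀ a b c : ZMod 7, ∃ e : Fin 28, e ≠ 7 ∧ e ≠ 18 ∧
    a * W e 2 + b * W e 3 + c * W e 4 = 0 := by
  decide +kernel

theorem W_flat : ∀ e : Fin 28, W e 2 = 0 → W e 3 = 0 → W e 4 = 0 → e = 7 ∨ e = 18 := by
  decide +kernel

/-- The points as elements of the projective space. -/
noncomputable def V (e : Fin 28) : Projectivization (ZMod 7) (Fin 5 → ZMod 7) :=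
  Projectivization.mk _ (W e) (W_ne e)

/-- The example. -/
noncomputable def M0 : Matroid (Fin 28) := linMat W

theorem V_sub (Y : Set (Fin 28)) :
    (⨆ e ∈ Y, (V e).submodule : Submodule (ZMod 7) (Fin 5 → ZMod 7))
      = Submodule.span (ZMod 7) (W '' Y) := by
  simp only [V, Projectivization.submodule_mk]
  rw [Submodule.span_eq_iSup_of_singleton_spans, iSup_image]

theorem M0_E : M0.E = Set.univ := linMat_E W

theorem M0_rk : ∀ Y ⊆ M0.E, M0.eRk Y =
    (finrank (ZMod 7) (⨆ e ∈ Y, (V e).submodule : Submodule (ZMod 7) (Fin 5 → ZMod 7)) : ℕ∞) := by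
  intro Y _
  rw [V_sub, M0, linMat_eRk]

/-- Evaluate a functional through its coordinates. -/
theorem dual_apply (f : Dual (ZMod 7) (Fin 5 → ZMod 7)) :
    ∃ c : Fin 5 → ZMod 7, ∀ x : Fin 5 → ZMod 7, f x = ∑ i, c i * x i := by
  refine ⟨fun i => f (fun j => if i = j then 1 else 0), fun x => ?_⟩
  rw [LinearMap.pi_apply_eq_sum_univ f x]
  apply Finset.sum_congr rfl
  intro i _
  rw [smul_eq_mul, mul_comm]

/-- The functional with given coordinates. -/
noncomputable def coordFun (c : Fin 5 → ZMod 7) : Dual (ZMod 7) (Fin 5 → ZMod 7) :=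
  ∑ i, c i • LinearMap.proj i

theorem coordFun_apply (c x : Fin 5 → ZMod 7) : coordFun c x = ∑ i, c i * x i := by
  simp [coordFun, LinearMap.sum_apply]

theorem V_le (e : Fin 28) (f : Dual (ZMod 7) (Fin 5 → ZMod 7)) :
    (V e).submodule ≤ LinearMap.ker f ↔ f (W e) = 0 := by
  rw [V, Projectivization.submodule_mk, Submodule.span_singleton_le_iff_mem, LinearMap.mem_ker]

theorem V_inj : Function.Injective V := by
  intro e f hef
  have h1 : (V e).submodule ≤ LinearMap.ker (coordFun (G e)) := by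
    rw [V_le, coordFun_apply, G_spec]
  rw [hef, V_le, coordFun_apply, G_spec] at h1
  exact h1.symm

theorem span_top {Y : Set (Fin 28)} (h : ({0, 7, 8, 10, 18} : Set (Fin 28)) ⊆ Y) :
    Submodule.span (ZMod 7) (W '' Y) = ⊤ := by
  rw [eq_top_iff]
  intro x _
  have hx : x = x 0 • W 7 + x 1 • W 18 + x 2 • W 8 + x 3 • W 10 + x 4 • W 0 := by
    ext i
    fin_cases i <;> simp [W]
  rw [hx]
  have hm : ∀ e ∈ ({0, 7, 8, 10, 18} : Set (Fin 28)), W e ∈ Submodule.span (ZMod 7) (W '' Y) :=
    fun e he => Submodule.subset_span ⟨e, h he, rfl⟩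
  refine Submodule.add_mem _ (Submodule.add_mem _ (Submodule.add_mem _ (Submodule.add_mem _
    ?_ ?_) ?_) ?_) ?_ <;> refine Submodule.smul_mem _ _ (hm _ ?_) <;> simp

theorem M0_eRank : M0.eRank = 5 := by
  rw [Matroid.eRank_def, M0_E, M0, linMat_eRk, span_top (Set.subset_univ _), finrank_top]
  simp

theorem M0_rep : IsRep (ZMod 7) 5 M0 V where
  rank := M0_eRank
  inj := V_inj.injOn
  rk := M0_rk

theorem M0_geom : IsGeometry M0 where
  finite := Set.toFinite _
  simple := by
    intro e _ f _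
    rw [M0, linMat_indep]
    by_cases hef : e = f
    · subst hef
      simp [W_ne]
    · rw [LinearIndepOn.pair_iff _ hef]
      intro c d hcd
      have h1 : coordFun (G e) (c • W e + d • W f) = 0 := by rw [hcd, map_zero]
      have h2 : coordFun (G f) (c • W e + d • W f) = 0 := by rw [hcd, map_zero]
      rw [map_add, map_smul, map_smul, coordFun_apply, coordFun_apply,
        (G_spec e e).2 rfl, smul_zero, zero_add, smul_eq_mul] at h1
      rw [map_add, map_smul, map_smul, coordFun_apply, coordFun_apply,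
        (G_spec f f).2 rfl, smul_zero, add_zero, smul_eq_mul] at h2
      constructor
      · rcases mul_eq_zero.1 h2 with h | h
        · exact h
        · exact absurd ((G_spec f e).1 h) hef
      · rcases mul_eq_zero.1 h1 with h | h
        · exact h
        · exact absurd ((G_spec e f).1 h).symm hef

/-- The modular copoint: the points at infinity. -/
def X0 : Set (Fin 28) := {e | W e 4 = 0}

theorem X0_flat : M0.IsFlat X0 := by
  rw [M0, isFlat_iff]
  intro e he
  have hle : Submodule.span (ZMod 7) (W '' X0) ≤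
      LinearMap.ker (LinearMap.proj 4 : (Fin 5 → ZMod 7) →ₗ[ZMod 7] ZMod 7) := by
    rw [Submodule.span_le]
    rintro _ ⟨g, hg, rfl⟩
    exact hg
  exact hle he

theorem X0_ne_top : Submodule.span (ZMod 7) (W '' X0) ≠ ⊤ := by
  intro h
  have hle : Submodule.span (ZMod 7) (W '' X0) ≤
      LinearMap.ker (LinearMap.proj 4 : (Fin 5 → ZMod 7) →ₗ[ZMod 7] ZMod 7) := by
    rw [Submodule.span_le]
    rintro _ ⟨g, hg, rfl⟩
    exact hg
  have h0 : W 0 ∈ Submodule.span (ZMod 7) (W '' X0) := by rw [h]; trivial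
  have h1 : W 0 4 = 0 := hle h0
  revert h1
  decide +kernel

theorem X0_copoint : IsCopoint M0 X0 := by
  refine ⟨X0_flat, ?_⟩
  rw [M0_eRank]
  have h1 : M0.eRk X0 < 5 := by
    rw [M0, linMat_eRk]
    have := Submodule.finrank_lt X0_ne_top
    rw [Module.finrank_fin_fun] at this
    exact_mod_cast this
  have h2 : (5 : ℕ∞) ≤ M0.eRk X0 + 1 := by
    have h3 : M0.eRk (insert 0 X0) = 5 := by
      rw [M0, linMat_eRk, span_top, finrank_top]
      · simp
      · intro e he
        simp only [Set.mem_insert_iff, Set.mem_singleton_iff] at he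
        rcases he with rfl | rfl | rfl | rfl | rfl
        · exact Set.mem_insert _ _
        all_goals
          refine Set.mem_insert_of_mem _ ?_
          change W _ 4 = 0
          decide +kernel
    have h4 := M0.eRk_union_le_eRk_add_encard X0 {0}
    rw [Set.union_singleton, h3, Set.encard_singleton] at h4
    exact h4
  have hne : M0.eRk X0 ≠ ⊤ := ne_top_of_lt h1
  obtain ⟨m, hm⟩ := ENat.ne_top_iff_exists.1 hne
  rw [← hm] at h1 h2 ⊢
  have h1' : m < 5 := by exact_mod_cast h1
  have h2' : 5 ≤ m + 1 := by exact_mod_cast h2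
  have : m = 4 := by omega
  subst this
  norm_num

theorem X0_modular : IsModularCopoint M0 X0 := by
  refine ⟨X0_copoint, ?_⟩
  intro L hL hrk
  have h1 : (1 : ℕ∞) < L.encard := by
    have := M0.eRk_le_encard L
    rw [hrk] at this
    exact lt_of_lt_of_le (by norm_num) this
  rw [Set.one_lt_encard_iff] at h1
  obtain ⟨e, f, he, hf, hef⟩ := h1
  by_cases he4 : W e 4 = 0
  · exact ⟨e, he, he4⟩
  by_cases hf4 : W f 4 = 0
  · exact ⟨f, hf, hf4⟩
  obtain ⟨g, hg4, hg⟩ := W_diff e f hef he4 hf4
  refine ⟨g, ?_, hg4⟩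
  rw [M0, isFlat_iff] at hL
  apply hL
  have hme : W e ∈ Submodule.span (ZMod 7) (W '' L) := Submodule.subset_span ⟨e, he, rfl⟩
  have hmf : W f ∈ Submodule.span (ZMod 7) (W '' L) := Submodule.subset_span ⟨f, hf, rfl⟩
  rcases hg with hg | hg
  · rw [hg]; exact Submodule.sub_mem _ hme hmf
  · rw [hg]; exact Submodule.sub_mem _ hmf hme

/-- Every hyperplane of `PG(4, 7)` meets the 28 points. -/
theorem hits (f : Dual (ZMod 7) (Fin 5 → ZMod 7)) : ∃ e, f (W e) = 0 := by
  by_contra hcon
  push Not at hcon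
  -- pigeonhole on the seven affine points
  let a : Fin 7 → {x : ZMod 7 // x ≠ 0} := fun i => ⟨f (W (Fin.castLE (by norm_num) i)), hcon _⟩
  have hcard : Fintype.card {x : ZMod 7 // x ≠ 0} < Fintype.card (Fin 7) := by
    decide +kernel
  obtain ⟨i, j, hij, haij⟩ := Fintype.exists_ne_map_eq_of_card_lt a hcard
  have haij' : f (W (Fin.castLE (by norm_num) i)) = f (W (Fin.castLE (by norm_num) j)) :=
    congrArg Subtype.val haij
  have hW4 : ∀ i : Fin 7, W (Fin.castLE (by norm_num : 7 ≤ 28) i) 4 ≠ 0 := by decide +kernel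
  obtain ⟨g, -, hg⟩ := W_diff (Fin.castLE (by norm_num : 7 ≤ 28) i)
    (Fin.castLE (by norm_num : 7 ≤ 28) j)
    (fun h => hij (Fin.castLE_injective _ h)) (hW4 i) (hW4 j)
  apply hcon g
  rcases hg with hg | hg
  · rw [hg, map_sub, haij', sub_self]
  · rw [hg, map_sub, haij', sub_self]

open Classical in
theorem charPoly_eval (N : Matroid (Fin 28)) (t : ℤ) :
    (charPoly N).eval t = ∑ A ∈ Finset.univ.filter (fun A : Finset (Fin 28) => (A : Set (Fin 28)) ⊆ N.E),
      (-1) ^ (Finset.card A) * t ^ (N.eRank.toNat - (N.eRk (A : Set (Fin 28))).toNat) := by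
  rw [charPoly, Polynomial.eval_finsetSum]
  apply Finset.sum_congr rfl
  intro A _
  simp

open Classical in
theorem charPoly_eval_count (N : Matroid (Fin 28))
    (hrk : ∀ Y ⊆ N.E, N.eRk Y =
      (finrank (ZMod 7) (⨆ e ∈ Y, (V e).submodule : Submodule (ZMod 7) (Fin 5 → ZMod 7)) : ℕ∞)) :
    (7 : ℤ) ^ (5 - N.eRank.toNat) * (charPoly N).eval 7
      = (Nat.card {f : Dual (ZMod 7) (Fin 5 → ZMod 7) // zeroSet N V f = ∅} : ℤ) := by
  have h := count N V hrk ∅
  rw [ZMod.card] at h
  simp only [Finset.card_empty, pow_zero, one_mul, Finset.empty_subset, and_true,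
    Nat.cast_ofNat] at h
  rw [← h, charPoly_eval, Finset.mul_sum]
  have hN5 : N.eRank.toNat ≤ 5 := by
    rw [Matroid.eRank_def, hrk _ subset_rfl, ENat.toNat_natCast]
    have := Submodule.finrank_le (⨆ e ∈ N.E, (V e).submodule : Submodule (ZMod 7) (Fin 5 → ZMod 7))
    rwa [Module.finrank_fin_fun] at this
  have hNtop : N.eRank ≠ ⊤ := by
    rw [Matroid.eRank_def, hrk _ subset_rfl]
    exact ENat.natCast_ne_top _
  apply Finset.sum_congr rfl
  intro A _
  have hle : (N.eRk (A : Set (Fin 28))).toNat ≤ N.eRank.toNat :=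
    ENat.toNat_le_toNat (N.eRk_le_eRank _) hNtop
  rw [mul_left_comm, ← pow_add]
  congr 2
  omega

open Classical in
theorem charPoly_one (N : Matroid (Fin 28)) (hN : N.E = Set.univ) :
    (charPoly N).eval 1 = 0 := by
  rw [charPoly_eval]
  simp only [one_pow, mul_one, hN, Set.subset_univ, Finset.filter_true]
  have := Finset.sum_powerset_neg_one_pow_card_of_nonempty (x := (Finset.univ : Finset (Fin 28)))
    Finset.univ_nonempty
  rwa [Finset.powerset_univ] at this

theorem M0_block : IsBlock 7 1 M0 := by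
  have h2 : (2 : ℕ∞) ≤ critExp M0 7 := by
    apply le_sInf
    rintro c ⟨m, rfl, hm⟩
    have hm0 : m ≠ 0 := by
      rintro rfl
      apply hm
      rw [pow_zero, charPoly_one M0 M0_E]
    have hm1 : m ≠ 1 := by
      rintro rfl
      apply hm
      rw [pow_one]
      have h := charPoly_eval_count M0 M0_rk
      have h0 : Nat.card {f : Dual (ZMod 7) (Fin 5 → ZMod 7) // zeroSet M0 V f = ∅} = 0 := by
        rw [Nat.card_eq_zero]
        left
        constructor
        rintro ⟨f, hf⟩
        obtain ⟨e, he⟩ := hits f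
        have : e ∈ zeroSet M0 V f := by
          simp only [zeroSet, Finset.mem_filter, Finset.mem_univ, true_and]
          exact ⟨by rw [M0_E]; trivial, (V_le e f).2 he⟩
        rw [hf] at this
        simp at this
      rw [h0] at h
      have h7 : (7 : ℤ) ^ (5 - M0.eRank.toNat) ≠ 0 := by positivity
      rcases mul_eq_zero.1 h with h | h
      · exact absurd h h7
      · exact_mod_cast h
    have : 2 ≤ m := by omega
    exact_mod_cast this
  exact lt_of_lt_of_le (by norm_num) h2

theorem M0_minimal : IsMinimalBlock 7 1 M0 := by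
  refine ⟨M0_block, ?_⟩
  intro x _
  apply sInf_le
  refine ⟨1, rfl, ?_⟩
  have hrk : ∀ Y ⊆ (M0.delete {x}).E, (M0.delete {x}).eRk Y =
      (finrank (ZMod 7) (⨆ e ∈ Y, (V e).submodule : Submodule (ZMod 7) (Fin 5 → ZMod 7)) : ℕ∞) := by
    intro Y hY
    rw [Matroid.delete_ground] at hY
    rw [Matroid.delete_eq_restrict, Matroid.restrict_eRk_eq _ hY]
    exact M0_rk Y (hY.trans Set.sdiff_subset)
  have h := charPoly_eval_count (M0.delete {x}) hrk
  intro h0
  have h0' : (charPoly (M0.delete {x})).eval 7 = 0 := by simpa using h0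
  rw [h0', mul_zero] at h
  have hc : Nat.card {f : Dual (ZMod 7) (Fin 5 → ZMod 7) // zeroSet (M0.delete {x}) V f = ∅} = 0 := by
    exact_mod_cast h.symm
  have : Finite (Dual (ZMod 7) (Fin 5 → ZMod 7)) :=
    Finite.of_injective (fun f : Dual (ZMod 7) (Fin 5 → ZMod 7) => (f : (Fin 5 → ZMod 7) → ZMod 7))
      DFunLike.coe_injective
  rw [Finite.card_eq_zero_iff] at hc
  apply hc.false
  refine ⟨coordFun (G x), ?_⟩
  rw [Finset.eq_empty_iff_forall_notMem]
  intro e he
  simp only [zeroSet, Finset.mem_filter, Finset.mem_univ, true_and] at he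
  rw [V_le, coordFun_apply, G_spec, Matroid.delete_ground] at he
  exact he.1.2 he.2

/-- The flat without a tangent. -/
def Y0 : Finset (Fin 28) := {7, 18}

theorem Y0_flat : M0.IsFlat (Y0 : Set (Fin 28)) := by
  rw [M0, isFlat_iff]
  intro e he
  have hle : Submodule.span (ZMod 7) (W '' (Y0 : Set (Fin 28))) ≤
      LinearMap.ker (LinearMap.proj 2 : (Fin 5 → ZMod 7) →ₗ[ZMod 7] ZMod 7) ⊓
      (LinearMap.ker (LinearMap.proj 3 : (Fin 5 → ZMod 7) →ₗ[ZMod 7] ZMod 7) ⊓
      LinearMap.ker (LinearMap.proj 4 : (Fin 5 → ZMod 7) →ₗ[ZMod 7] ZMod 7)) := by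
    rw [Submodule.span_le]
    rintro _ ⟨g, hg, rfl⟩
    simp only [Y0, Finset.coe_insert, Finset.coe_singleton, Set.mem_insert_iff,
      Set.mem_singleton_iff] at hg
    rcases hg with rfl | rfl
    · exact ⟨(by decide +kernel : W 7 2 = 0), (by decide +kernel : W 7 3 = 0),
        (by decide +kernel : W 7 4 = 0)⟩
    · exact ⟨(by decide +kernel : W 18 2 = 0), (by decide +kernel : W 18 3 = 0),
        (by decide +kernel : W 18 4 = 0)⟩
  obtain ⟨h2, h3, h4⟩ := hle he
  have := W_flat e h2 h3 h4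
  simpa [Y0] using this

theorem Y0_no (f : Dual (ZMod 7) (Fin 5 → ZMod 7)) : zeroSet M0 V f ≠ Y0 := by
  intro hf
  obtain ⟨c, hc⟩ := dual_apply f
  have hmem : ∀ e, e ∈ Y0 ↔ f (W e) = 0 := by
    intro e
    rw [← hf]
    simp only [zeroSet, Finset.mem_filter, Finset.mem_univ, true_and, V_le, M0_E, Set.mem_univ]
  have h0 : c 0 = 0 := by
    have := (hmem 7).1 (by simp [Y0])
    rw [hc] at this
    simpa [W, Fin.sum_univ_succ] using this
  have h1 : c 1 = 0 := by
    have := (hmem 18).1 (by simp [Y0])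
    rw [hc] at this
    simpa [W, Fin.sum_univ_succ] using this
  obtain ⟨e, he7, he18, he⟩ := W_Y (c 2) (c 3) (c 4)
  have : e ∈ Y0 := by
    rw [hmem, hc]
    simp only [Fin.sum_univ_five, h0, h1, zero_mul, zero_add]
    exact he
  simp only [Y0, Finset.mem_insert, Finset.mem_singleton] at this
  rcases this with h | h
  · exact he7 h
  · exact he18 h

theorem not_tangential (v : Fin 28 → Projectivization (ZMod 7) (Fin 5 → ZMod 7))
    (hv : IsRep (ZMod 7) 5 M0 v) : ¬ IsTangentialBlock 1 M0 v := by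
  rintro ⟨-, ht⟩
  have hrk2 : M0.eRk (Y0 : Set (Fin 28)) + ((1 : ℕ) : ℕ∞) ≤ ((5 : ℕ) : ℕ∞) := by
    have h := M0.eRk_le_encard (Y0 : Set (Fin 28))
    have hc : (Y0 : Set (Fin 28)).encard = 2 := by
      rw [Set.encard_coe_eq_coe_finsetCard]
      rfl
    rw [hc] at h
    calc M0.eRk (Y0 : Set (Fin 28)) + ((1 : ℕ) : ℕ∞) ≤ 2 + ((1 : ℕ) : ℕ∞) := by gcongr
      _ ≤ ((5 : ℕ) : ℕ∞) := by norm_num
  obtain ⟨U, hU, hUY⟩ := ht Y0 Y0_flat ⟨7, by simp [Y0]⟩ hrk2
  have hUlt : U < ⊤ := by
    rw [lt_top_iff_ne_top]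
    rintro rfl
    rw [finrank_top, Module.finrank_fin_fun] at hU
    omega
  obtain ⟨f, hf0, hfU⟩ := Submodule.exists_le_ker_of_lt_top U hUlt
  have hker : U = LinearMap.ker f := by
    apply Submodule.eq_of_le_of_finrank_le hfU
    have h1 := LinearMap.finrank_range_add_finrank_ker f
    rw [Module.finrank_fin_fun] at h1
    have h2 : 0 < finrank (ZMod 7) (LinearMap.range f) := by
      rw [Module.finrank_pos_iff_exists_ne_zero]
      by_contra hcon
      push Not at hcon
      apply hf0
      ext i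
      have := hcon ⟨f (Pi.single i 1), ⟨_, rfl⟩⟩
      simpa using congrArg Subtype.val this
    omega
  have hzero : zeroSet M0 v f = Y0 := by
    ext e
    simp only [zeroSet, Finset.mem_filter, Finset.mem_univ, true_and]
    rw [← hker]
    have heE : e ∈ M0.E := by rw [M0_E]; trivial
    rw [hUY e heE]
    simp [heE]
  have hcV := count M0 V M0_rk Y0
  have hcv := count M0 v hv.rk Y0
  rw [hcV] at hcv
  have hV0 : Nat.card {f : Dual (ZMod 7) (Fin 5 → ZMod 7) // zeroSet M0 V f = Y0} = 0 := by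
    rw [Nat.card_eq_zero]
    left
    exact ⟨fun g => Y0_no g.1 g.2⟩
  rw [hV0] at hcv
  have hpow : ((-1 : ℤ)) ^ Y0.card ≠ 0 := by positivity
  have hv0 : Nat.card {f : Dual (ZMod 7) (Fin 5 → ZMod 7) // zeroSet M0 v f = Y0} = 0 := by
    have := mul_eq_zero.1 (hcv.symm.trans (by simp))
    rcases this with h | h
    · exact absurd h hpow
    · exact_mod_cast h
  have : Finite (Dual (ZMod 7) (Fin 5 → ZMod 7)) :=
    Finite.of_injective (fun f : Dual (ZMod 7) (Fin 5 → ZMod 7) => (f : (Fin 5 → ZMod 7) → ZMod 7))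
      DFunLike.coe_injective
  rw [Finite.card_eq_zero_iff] at hv0
  exact hv0.false ⟨f, hzero⟩

end Example

/-- **Answer to Q1 (yes).**  There is a rank-5 geometry on 28 points, representable over
`GF(7)`, which has a modular copoint and is a minimal 1-block over `GF(7)`, but which is not a
tangential 1-block (whichever representation over `GF(7)` is used to test for tangents). -/
theorem result :
    ∃ M : Matroid (Fin 28), M.E = Set.univ ∧ IsGeometry M ∧
      (∃ v, IsRep (ZMod 7) 5 M v) ∧ (∃ X, IsModularCopoint M X) ∧ IsMinimalBlock 7 1 M ∧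
      ∀ v, IsRep (ZMod 7) 5 M v → ¬ IsTangentialBlock 1 M v :=
  ⟨M0, M0_E, M0_geom, ⟨V, M0_rep⟩, ⟨X0, X0_modular⟩, M0_minimal, not_tangential⟩

end Pool.Agent.Results.MP_7230e4_co.MinimalNotTangential
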